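import Pool.Agent.Helper91.SY.Heads

/-! Packet SY-CB: a constant bracket implies commuting translations. -/

set_option autoImplicit false

open Set Filter Topology
open scoped ContDiff

namespace Pool.Agent.Helper86.SY

open Pool.Agent.Helper91.SY

theorem atInf_radius {n : ℕ} {W : Type} {a b : V n → W} (h : AtInf a b) :
    ∃ r : ℝ, ∀ x, r ≤ ‖x‖ → a x = b x := by
  obtain ⟨K, hK, h1⟩ := h
  obtain ⟨r, hr⟩ := hK.isBounded.subset_closedBall (0 : V n)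
  refine ⟨r + 1, fun x hx => h1 x fun hxK => ?_⟩
  have h2 := hr hxK
  rw [mem_closedBall_zero_iff] at h2
  linarith

theorem tr_atInf {n : ℕ} {R : ℝ} {e : V n} {g : V n ≃ V n} (h : Tr R e g) :
    AtInf (fun x => g x) (fun x => x + e) := by
  refine ⟨Metric.closedBall 0 R, isCompact_closedBall _ _, fun x hx => ?_⟩
  rw [mem_closedBall_zero_iff, not_le] at hx
  exact h x hx.le

theorem cb_ (hTO : StmtTO) (hCM : StmtCM) (hCW : StmtCW) (hCX : StmtCX) : StmtCB := by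
  intro n η hη h
  obtain ⟨ℓ₁, ℓ₂, hind, f₁, f₂, hf₁, hf₂, ha₁, ha₂, c, hc⟩ := h
  obtain ⟨B, B0, R₀, hR₀, hS, hFar, hB, hB0⟩ := hCW n η hη
  obtain ⟨r₁, hr₁⟩ := atInf_radius ha₁
  obtain ⟨r₂, hr₂⟩ := atInf_radius ha₂
  obtain ⟨c1, c2, -, -⟩ := hCX n
  obtain ⟨e₁, he₁⟩ := c1 ℓ₁
  obtain ⟨e₂, he₂⟩ := c1 ℓ₂
  refine ⟨e₁, e₂, c2 ℓ₁ ℓ₂ e₁ e₂ hind he₁ he₂, ?_⟩
  set R : ℝ := max R₀ (max r₁ r₂) with hR
  have hR0 : 0 ≤ R := hR₀.trans (le_max_left _ _)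
  have hFar' : Far R B B0 := fun x hx => hFar x ((le_max_left _ _).trans hx)
  have hf₁' : ∀ x, R ≤ ‖x‖ → f₁ x = ℓ₁ x := fun x hx =>
    hr₁ x (((le_max_left _ _).trans (le_max_right _ _)).trans hx)
  have hf₂' : ∀ x, R ≤ ‖x‖ → f₂ x = ℓ₂ x := fun x hx =>
    hr₂ x (((le_max_right _ _).trans (le_max_right _ _)).trans hx)
  obtain ⟨X₁, Φ₁, g₁, sX₁, hX₁, -, hΦ₁, -, hg₁, -, sg₁, pg₁, tg₁⟩ :=
    hTO (V n) B B0 R f₁ ℓ₁ e₁ hR0 hS hFar' hf₁ hf₁' (fun v => by rw [hB0]; exact he₁ v)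
  obtain ⟨X₂, Φ₂, g₂, sX₂, hX₂, iX₂, hΦ₂, -, hg₂, -, -, -, tg₂⟩ :=
    hTO (V n) B B0 R f₂ ℓ₂ e₂ hR0 hS hFar' hf₂ hf₂' (fun v => by rw [hB0]; exact he₂ v)
  have hbr : ∀ x, B x (X₁ x) (X₂ x) = c := by
    intro x
    rw [hB]
    refine hc x (X₁ x) (X₂ x) ?_ ?_
    · intro v
      rw [← hB]
      exact hX₁ x v
    · intro v
      rw [← hB]
      exact hX₂ x v
  have hcomm := hCM (V n) B f₁ f₂ X₁ X₂ Φ₁ Φ₂ (R + 1) e₂ c hS hf₁ hf₂ sX₁ sX₂ hX₁ hX₂ hΦ₁ hΦ₂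
    iX₂ hbr
  refine ⟨g₁, g₂, sg₁, ?_, tr_atInf tg₁, tr_atInf tg₂, ?_⟩
  · intro x u v
    rw [← hB, ← hB]
    exact pg₁ x u v
  · intro x
    rw [hg₁, hg₂, hg₁, hg₂]
    exact hcomm 1 1 x

end Pool.Agent.Helper86.SY
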